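import Pool.Agent.V11124.NK.Neck

open Filter Topology Pool.Agent.V11124.NK

/-- There is a constant `c` such that the minimum number of cuts in a fair split between two
thieves of a uniformly random necklace with two beads of each of `t` types, divided by `t`,
tends to `c` in probability. -/
theorem Pool.Agent.Results.MP_fcaed2_pr.CutDensityLimit.result :
    ∃ c : ℝ, ∀ ε > 0,
      Tendsto (fun t : ℕ => (((necklaces t).filter
        (fun a => |(minCuts a : ℝ) / t - c| < ε)).card : ℝ) / ((necklaces t).card : ℝ))
        atTop (𝓝 1) := main
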